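import Pool.Agent.Helper60.Fin.Main
import Pool.Agent.Helper60.Fin.Sanity

/-! # An unknotted winding number one satellite operator that is not trivial on topological concordance

The definitions are in `Pool/Agent/Helper60/Fin/Stmt.lean`: `Pattern`, `Pattern.WindOne`,
`Pattern.Unknotted`, `ZeroFramed`, `Pattern.sat`, `Concordant`. The knot is the trefoil and the pattern is the
curve `G ∪ A` with `G(r) = (exp(2πi(7r² - 6r)), r - 1/2)`, `A(r) = (1, r - 1/2 + i r(1-r)(3r-1))`, `0 ≤ r ≤ 1`.

Outline of the proof. Suppose there is a concordance from `J = P(K)` to `K`.
1. Over the field with 25 elements a duality argument on the exterior gives a class in twisted `H¹`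
   which is nontrivial at one end; with its cup square it defines a homomorphism of the group of the exterior
   to `Γ = (5-group) ⋊ ℤ` for which the longitude of the companion torus becomes a nontrivial central element.
2. A monomial representation of `Γ` of odd dimension in which that element acts by `exp(2πi/5)`, twisted by
   a suitable `t` on the unit circle, has odd dimensional `H¹` at the end `J` and none at the end `K`,
   while duality on the exterior forces the sum of the two dimensions to be even. -/

set_option autoImplicit false

namespace Pool.Agent.Results.MP_b8a826_gt.NontrivialOperator

open Pool.Agent.Helper60.Fin

/-- There is a pattern `P` in the solid torus which is unknotted in the 3-sphere and has winding number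
one, and a knot `K` with a 0-framed tubular neighbourhood `e`, such that the satellite `P(K) = e(P)` is not
topologically concordant to `K`: the operator of `P` is not trivial on topological concordance. -/
theorem result : ∃ P : Pattern, P.Unknotted ∧ P.WindOne ∧
    ∃ (K : Set S3) (e : Circle × Disc → S3), ZeroFramed e K ∧ ¬ Concordant (P.sat e) K := main

end Pool.Agent.Results.MP_b8a826_gt.NontrivialOperator
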